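import Pool.Agent.helper74.MQ.Spec

set_option autoImplicit false

open Complex Metric Set Filter Topology MeasureTheory MPS

noncomputable section

namespace MQ

/-- the imaginary part of a logarithm -/
theorem NG1_im (κ z : ℂ) (h : Complex.exp κ = z) : ∃ m : ℤ, κ.im = z.arg + m * (2 * Real.pi) := by
  have hz : z ≠ 0 := by rw [← h]; exact Complex.exp_ne_zero _
  have h1 : Complex.exp κ = Complex.exp (Complex.log z) := by rw [h, Complex.exp_log hz]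
  obtain ⟨m, hm⟩ := Complex.exp_eq_exp_iff_exists_int.mp h1
  refine ⟨m, ?_⟩
  have h2 := congrArg Complex.im hm
  rw [Complex.add_im, Complex.log_im] at h2
  rw [h2]
  congr 1
  simp [Complex.mul_im]

theorem NG1_unit (z : ℂ) (hz : z ≠ 0) : z / ‖z‖ = Complex.exp (((-(z⁻¹).arg : ℝ) : ℂ) * I) := by
  have hn : (‖z‖ : ℂ) ≠ 0 := by
    rw [Ne, Complex.ofReal_eq_zero, norm_eq_zero]; exact hz
  have h1 := Complex.norm_mul_exp_arg_mul_I z⁻¹
  have h2 : Complex.exp (((z⁻¹).arg : ℂ) * I) = z⁻¹ * ‖z‖ := by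
    rw [norm_inv, Complex.ofReal_inv] at h1
    have h4 : Complex.exp (((z⁻¹).arg : ℂ) * I) =
        (((‖z‖ : ℂ))⁻¹ * Complex.exp (((z⁻¹).arg : ℂ) * I)) * ‖z‖ := by
      rw [mul_comm ((‖z‖ : ℂ)⁻¹), mul_assoc, inv_mul_cancel₀ hn, mul_one]
    rw [h4, h1]
  have h3 : Complex.exp (((-(z⁻¹).arg : ℝ) : ℂ) * I) = (Complex.exp (((z⁻¹).arg : ℂ) * I))⁻¹ := by
    rw [← Complex.exp_neg]
    congr 1
    push_cast
    ring
  rw [h3, h2, mul_inv, inv_inv]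
  rfl

theorem NG1_bd (t : ℝ) : ‖Complex.exp ((t : ℂ) * I) - 1‖ ≤ |t| := by
  have := Real.norm_exp_I_mul_ofReal_sub_one_le (x := t)
  rw [mul_comm] at this
  simpa using this

theorem NG1_bd2 (t : ℝ) (m : ℤ) : ‖Complex.exp ((t : ℂ) * I) - 1‖ ≤ |t + m * (2 * Real.pi)| := by
  have h := NG1_bd (t + m * (2 * Real.pi))
  have h1 : Complex.exp (((t + m * (2 * Real.pi) : ℝ) : ℂ) * I) = Complex.exp ((t : ℂ) * I) := by
    rw [Complex.exp_eq_exp_iff_exists_int]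
    refine ⟨m, ?_⟩
    push_cast
    ring
  rwa [h1] at h

theorem NG1 (hLT : LT_stmt) (hC : COC_stmt) (hS : SYM_stmt) (hP : PLA_stmt) : NG1_stmt := by
  intro n d₀ d₂ r₀ hn hd₀ hd₂ hr₀ hr₁
  set η : ℝ := min (r₀ / 10 ^ 6) (min (d₀ / 8) (d₂ / 8)) with hη
  have hη0 : 0 < η := by positivity
  have hηr : η ≤ r₀ / 10 ^ 6 := min_le_left _ _
  have hηd : η ≤ d₀ / 8 := (min_le_right _ _).trans (min_le_left _ _)
  have hηd2 : η ≤ d₂ / 8 := (min_le_right _ _).trans (min_le_right _ _)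
  obtain ⟨R₁, hR₁, ε₁, hε₁, H₁⟩ := hLT n r₀ η hn hr₀ hr₁ hη0
  obtain ⟨R₂, hR₂, ε₂, hε₂, H₂⟩ := hLT n (r₀ / 200) η hn (by positivity) (by linarith) hη0
  refine ⟨max R₁ R₂, le_max_of_le_left hR₁, min ε₁ ε₂, lt_min hε₁ hε₂, ?_⟩
  intro k _ c b g ψ R ε hSU hFam hR hε h₀ h₂ i l S y hil hSre hst
  have hRR₁ : R₁ ≤ R := (le_max_left _ _).trans hR
  have hRR₂ : R₂ ≤ R := (le_max_right _ _).trans hR
  have hεε₁ : ε ≤ ε₁ := hε.trans (min_le_left _ _)
  have hεε₂ : ε ≤ ε₂ := hε.trans (min_le_right _ _)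
  have hk1 : 1 ≤ k := by have := hFam.hk; omega
  have hkk : ((k : ℕ) : ZMod k) = 0 := ZMod.natCast_self k
  have hK : ∀ j : ZMod k, Kq n b ψ j k = (rho n b)⁻¹ := fun j =>
    (hC n k b ψ hn hSU.cyc.ne0 (fun j => (hFam.mx j).pn.der) j).2.2.1
  obtain ⟨κ, κ', S₁, hκ, hκ', hSS, hκr, hκr', hst₁⟩ :=
    H₁ k c b g ψ R ε hSU hFam hRR₁ hεε₁ i l k S y hil hk1 le_rfl hst (by linarith [hr₀])
  rw [hkk, sub_zero, sub_zero] at hst₁
  rw [hK] at hκ hκ'
  have hre₁ : S₁.re ≤ r₀ / 200 / 1000 := by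
    have e1 : (S₁ - (S + κ + κ')).re ≤ η := (Complex.re_le_norm _).trans hSS
    have e2 : (S₁ - (S + κ + κ')).re = S₁.re - (S.re + κ.re + κ'.re) := by simp
    have e3 := (abs_le.mp hκr).2
    have e4 := (abs_le.mp hκr').2
    rw [e2] at e1
    linarith
  obtain ⟨μ, μ', S₂, hμ, hμ', hSS₂, hμr, hμr', hst₂⟩ :=
    H₂ k c b g ψ R ε hSU hFam hRR₂ hεε₂ i l k S₁ (y + κ.im) hil hk1 le_rfl hst₁ hre₁
  rw [hkk, sub_zero, sub_zero] at hst₂
  rw [hK] at hμ hμ'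
  have hPN : ∀ j : ZMod k, PN b g j (ψ j) 1 := fun j => (hFam.mx j).pn
  set a : ℝ := ((rho n b)⁻¹).arg with ha
  obtain ⟨m₁, hm₁⟩ := NG1_im κ _ hκ
  obtain ⟨m₂, hm₂⟩ := NG1_im κ' _ hκ'
  obtain ⟨m₃, hm₃⟩ := NG1_im μ _ hμ
  obtain ⟨m₄, hm₄⟩ := NG1_im μ' _ hμ'
  rw [← ha] at hm₁ hm₂ hm₃ hm₄
  -- errors
  have hρ0 : rho n b ≠ 0 := by
    intro h0
    have := hSU.rho1
    rw [h0, norm_zero] at this
    linarith
  have him₁ : |S₁.im - (S.im + κ.im + κ'.im)| ≤ η := by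
    have e1 := (Complex.abs_im_le_norm (S₁ - (S + κ + κ'))).trans hSS
    simpa using e1
  have him₂ : |S₂.im - (S₁.im + μ.im + μ'.im)| ≤ η := by
    have e1 := (Complex.abs_im_le_norm (S₂ - (S₁ + μ + μ'))).trans hSS₂
    simpa using e1
  have hu := NG1_unit _ hρ0
  rw [← ha] at hu
  have hda : d₀ ≤ |a| := by
    rw [hu] at h₀
    have := h₀.trans (NG1_bd _)
    rwa [abs_neg] at this
  have hsq : (rho n b / ‖rho n b‖) ^ 2 = Complex.exp (((-(2 * a) : ℝ) : ℂ) * I) := by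
    rw [hu, ← Complex.exp_nat_mul]
    congr 1
    push_cast
    ring
  have hpa : a ≤ Real.pi := Complex.arg_le_pi _
  have hpa' : -Real.pi < a := Complex.neg_pi_lt_arg _
  have hda2 : d₂ / 2 ≤ Real.pi - |a| := by
    rw [hsq] at h₂
    rcases le_total 0 a with h | h
    · have h3 := h₂.trans (NG1_bd2 _ 1)
      rw [abs_of_nonneg (by push_cast; linarith)] at h3
      rw [abs_of_nonneg h]
      push_cast at h3
      linarith
    · have h3 := h₂.trans (NG1_bd2 _ (-1))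
      rw [abs_of_nonpos (by push_cast; linarith)] at h3
      rw [abs_of_nonpos h]
      push_cast at h3
      linarith
  have he : (0 : ℝ) < r₀ / 40000 := by positivity
  -- the three strips
  have s₀ : Strip b g (ψ i) (ψ l) S (y - r₀ / 40000) (y + r₀ / 40000) :=
    (hS k b g i l (ψ i) (ψ l) (hPN i) (hPN l) _ _ _ hst).2.2.1 _ _ (by linarith) (by linarith)
  -- shift the directions at both ends
  have sh : ∀ (T : ℂ) (z z' e : ℝ) (p q : ℤ), r₀ / 40000 ≤ e →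
      Strip b g (ψ i) (ψ l) T (z - e) (z + e) → z' = z + p * (2 * Real.pi) →
      Strip b g (ψ i) (ψ l) (T + 2 * Real.pi * I * p + 2 * Real.pi * I * q)
        (z' - r₀ / 40000) (z' + r₀ / 40000) := by
    intro T z z' e p q hee hT hz
    have t1 := ((hS k b g i l (ψ i) (ψ l) (hPN i) (hPN l) _ _ _ hT).2.1 p).2
    have t2 := ((hS k b g i l (ψ i) (ψ l) (hPN i) (hPN l) _ _ _ t1).2.1 q).1
    exact (hS k b g i l (ψ i) (ψ l) (hPN i) (hPN l) _ _ _ t2).2.2.1 _ _ (by rw [hz]; linarith)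
      (by rw [hz]; linarith)
  have s₁ := sh S₁ (y + κ.im) (y + a) (r₀ / 200) (-m₁) (-m₂) (by linarith) hst₁
    (by rw [hm₁]; push_cast; ring)
  have s₂ := sh S₂ (y + κ.im + μ.im) (y + 2 * a) (r₀ / 200 / 200) (-(m₁ + m₃)) (-(m₂ + m₄)) (by linarith)
    hst₂ (by rw [hm₁, hm₃]; push_cast; ring)
  set T₁ : ℂ := S₁ + 2 * Real.pi * I * (-m₁ : ℤ) + 2 * Real.pi * I * (-m₂ : ℤ) with hT₁
  set T₂ : ℂ := S₂ + 2 * Real.pi * I * (-(m₁ + m₃) : ℤ) + 2 * Real.pi * I * (-(m₂ + m₄) : ℤ) with hT₂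
  have hi : ∀ q : ℤ, (2 * Real.pi * I * (q : ℂ)).im = q * (2 * Real.pi) := by
    intro q
    have : (2 * Real.pi * I * (q : ℂ)) = ((q * (2 * Real.pi) : ℝ) : ℂ) * I := by
      push_cast
      ring
    rw [this, Complex.im_ofReal_mul, Complex.I_im, mul_one]
  have hTi₁ : |T₁.im - (y + a) - (S.im - y + a)| ≤ η := by
    rw [hT₁, Complex.add_im, Complex.add_im, hi, hi]
    refine le_trans (le_of_eq ?_) him₁
    congr 1
    rw [hm₁, hm₂]
    push_cast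
    ring
  have hTi₂ : |T₂.im - (y + 2 * a) - (S.im - y + 2 * a)| ≤ 2 * η := by
    have e1 : T₂.im - (y + 2 * a) - (S.im - y + 2 * a) =
        (S₂.im - (S₁.im + μ.im + μ'.im)) + (S₁.im - (S.im + κ.im + κ'.im)) := by
      rw [hT₂, Complex.add_im, Complex.add_im, hi, hi, hm₁, hm₂, hm₃, hm₄]
      push_cast
      ring
    rw [e1]
    refine (abs_add_le _ _).trans ?_
    linarith
  obtain ⟨c₁, c₂⟩ := abs_le.mp hTi₁
  obtain ⟨c₃, c₄⟩ := abs_le.mp hTi₂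
  have hpi := Real.pi_pos
  rcases le_total 0 a with h | h
  · rw [abs_of_nonneg h] at hda hda2
    refine hP k b g ψ hFam i l S T₁ T₂ y (y + a) (y + 2 * a) (r₀ / 40000) hil he s₀ s₁ s₂
      (by linarith) (by linarith) (by linarith) (by linarith) (by linarith) (by linarith)
  · rw [abs_of_nonpos h] at hda hda2
    refine hP k b g ψ hFam i l T₂ T₁ S (y + 2 * a) (y + a) y (r₀ / 40000) hil he s₂ s₁ s₀
      (by linarith) (by linarith) (by linarith) (by linarith) (by linarith) (by linarith)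

end MQ
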